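import Pool.Agent.Helper376.CL.Defs

set_option autoImplicit false

/-!
Z-structure boundaries pass to subgroups of finite index (and to isomorphic groups).
-/

namespace Pool.Agent.Y469.SP

open Pool.Agent.Helper376.CL
open Set Topology

/-- A cocompact action by homeomorphisms on a locally compact space has a compact set which meets
all orbits. -/
theorem exists_compact {G X : Type} [Group G] [TopologicalSpace X] [LocallyCompactSpace X]
    [MulAction G X] [ContinuousConstSMul G X]
    (h : CompactSpace (MulAction.orbitRel.Quotient G X)) :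
    ∃ K : Set X, IsCompact K ∧ ∀ x : X, ∃ g : G, ∃ y ∈ K, x = g • y := by
  classical
  choose N hN hNx using fun x : X => exists_compact_mem_nhds x
  let π : X → MulAction.orbitRel.Quotient G X := fun x => Quotient.mk _ x
  have hopen : IsOpenMap π := isOpenMap_quotient_mk'_mul
  have hcov : (univ : Set (MulAction.orbitRel.Quotient G X)) ⊆ ⋃ x : X, π '' interior (N x) := by
    intro q _
    obtain ⟨x, rfl⟩ := Quotient.exists_rep q
    exact mem_iUnion.2 ⟨x, x, mem_interior_iff_mem_nhds.2 (hNx x), rfl⟩
  obtain ⟨t, ht⟩ := isCompact_univ.elim_finite_subcover (fun x : X => π '' interior (N x))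
    (fun x => hopen _ isOpen_interior) hcov
  refine ⟨⋃ x ∈ t, N x, t.isCompact_biUnion fun x _ => hN x, fun x => ?_⟩
  have hx := ht (mem_univ (π x))
  simp only [mem_iUnion] at hx
  obtain ⟨z, hz, y, hy, hyx⟩ := hx
  have hr : (MulAction.orbitRel G X) y x := Quotient.exact hyx
  obtain ⟨g, hg⟩ := (MulAction.orbitRel_apply.1 hr)
  refine ⟨g⁻¹, y, mem_iUnion₂.2 ⟨z, hz, interior_subset hy⟩, ?_⟩
  have hg' : g • x = y := hg
  rw [← hg', inv_smul_smul]

/-- Cocompactness passes to subgroups of finite index. -/
theorem compact_quotient {G H X : Type} [Group G] [Group H] [TopologicalSpace X]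
    [LocallyCompactSpace X] [MulAction G X] [ContinuousConstSMul G X] (φ : H →* G)
    (hfi : φ.range.FiniteIndex) (h : CompactSpace (MulAction.orbitRel.Quotient G X)) :
    let _ : MulAction H X := MulAction.compHom X φ
    CompactSpace (MulAction.orbitRel.Quotient H X) := by
  letI : MulAction H X := MulAction.compHom X φ
  obtain ⟨K, hK, hcov⟩ := exists_compact (G := G) h
  have hfin : Finite (G ⧸ φ.range) := Subgroup.finite_quotient_of_finiteIndex
  have hK' : IsCompact (⋃ q : G ⧸ φ.range, (fun y : X => (q.out)⁻¹ • y) '' K) :=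
    isCompact_iUnion fun q => hK.image (continuous_const_smul _)
  have himg : (Quotient.mk (MulAction.orbitRel H X)) ''
      (⋃ q : G ⧸ φ.range, (fun y : X => (q.out)⁻¹ • y) '' K) = univ := by
    rw [eq_univ_iff_forall]
    intro p
    obtain ⟨x, rfl⟩ := Quotient.exists_rep p
    obtain ⟨g, y, hy, rfl⟩ := hcov x
    obtain ⟨⟨r, k, rfl⟩, hr⟩ := QuotientGroup.mk_out_eq_mul φ.range g⁻¹
    refine ⟨((QuotientGroup.mk g⁻¹ : G ⧸ φ.range).out)⁻¹ • y,
      mem_iUnion.2 ⟨QuotientGroup.mk g⁻¹, y, hy, rfl⟩, ?_⟩
    apply Quotient.sound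
    refine MulAction.orbitRel_apply.2 ⟨k⁻¹, ?_⟩
    show φ k⁻¹ • (g • y) = _
    rw [hr, ← mul_smul]
    congr 1
    simp
  exact ⟨by rw [← himg]; exact hK'.image continuous_quotient_mk'⟩

/-- **Z-structure boundaries pass to subgroups of finite index.** -/
theorem boundary_finiteIndex {G H : Type} [Group G] [Group H] {Z : Type} [TopologicalSpace Z]
    (φ : H →* G) (hinj : Function.Injective φ) (hfi : φ.range.FiniteIndex)
    (h : IsZBoundary G Z) : IsZBoundary H Z := by
  obtain ⟨X, _, S, act, hS, hZ⟩ := h
  have : CompactSpace X := hS.retract.1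
  have hcl : IsClosed S := hS.zset.1.isClosed
  have hlc : LocallyCompactSpace ↥(Sᶜ) := hcl.isOpen_compl.locallyCompactSpace
  have hcs : ContinuousConstSMul G ↥(Sᶜ) := ⟨hS.cont⟩
  letI act' : MulAction H ↥(Sᶜ) := MulAction.compHom _ φ
  refine ⟨X, inferInstance, S, act', ?_, hZ⟩
  exact
    { retract := hS.retract
      zset := hS.zset
      cont := fun g => hS.cont (φ g)
      covering := by
        intro x
        obtain ⟨U, h1, h2, h3⟩ := hS.covering x
        exact ⟨U, h1, h2, fun g hg => h3 (φ g) fun h0 => hg (hinj (by rw [h0, map_one]))⟩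
      cocompact := compact_quotient φ hfi hS.cocompact
      null := by
        intro K hK ε hε
        exact (hS.null K hK ε hε).preimage (f := φ) hinj.injOn }

end Pool.Agent.Y469.SP
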