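import Pool.Agent.Y469.SP.Split

set_option autoImplicit false

/-!
Subgroups of finite index of the product of two free groups of rank two do not split over two-ended
subgroups.
-/

namespace Pool.Agent.Y469.SP

open Pool.Agent.H895R2.SB

section Trees

variable {V : Type} {T : SimpleGraph V} {G : Type} [Group G] [MulAction G V]

/-- An element with a power which fixes a vertex fixes a vertex. -/
theorem elliptic_of_pow (hT : T.IsTree)
    (hadj : ∀ (g : G) (u v : V), T.Adj u v → T.Adj (g • u) (g • v))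
    (hinv : ∀ (g : G) (u v : V), T.Adj u v → ¬ (g • u = v ∧ g • v = u)) (g : G) {m : ℕ}
    (hm : 0 < m) (x : V) (hx : g ^ m • x = x) : ∃ v : V, g • v = v := by
  by_contra hg
  obtain ⟨o, hpos, h2⟩ := exists_axis hT hadj hinv g hg
  have hz := axis_dist hT hadj g o hpos h2
  set d := T.dist o x with hd
  have hpow : ∀ n : ℕ, (g ^ m) ^ n • x = x := by
    intro n
    induction n with
    | zero => simp
    | succ n ih => rw [pow_succ, mul_smul, hx, ih]
  have e1 := hz (m * (2 * d + 1))
  rw [pow_mul] at e1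
  have t := tri hT o x ((g ^ m) ^ (2 * d + 1) • o)
  have e2 := ds hT hadj ((g ^ m) ^ (2 * d + 1)) x o
  rw [hpow] at e2
  have d1 := dcomm (T := T) x o
  have h3 : 2 * d + 1 ≤ m * (2 * d + 1) := Nat.le_mul_of_pos_left _ hm
  have h4 : m * (2 * d + 1) ≤ m * (2 * d + 1) * T.dist o (g • o) := Nat.le_mul_of_pos_right _ hpos
  omega

/-- An element which commutes with a group that has two commutators without common powers fixes a
vertex, if the stabilisers of edges are two-ended. -/
theorem elliptic_of_comm (hT : T.IsTree)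
    (hadj : ∀ (g : G) (u v : V), T.Adj u v → T.Adj (g • u) (g • v))
    (hinv : ∀ (g : G) (u v : V), T.Adj u v → ¬ (g • u = v ∧ g • v = u))
    (hst : ∀ u v : V, T.Adj u v →
      IsTwoEnded ↥(MulAction.stabilizer G u ⊓ MulAction.stabilizer G v))
    {C : Type} [Group C] (hC : Rich C) (g : G) (φ : C →* G) (hφ : Function.Injective φ)
    (hg : ∀ b, φ b * g = g * φ b) : ∃ v : V, g • v = v := by
  by_contra hc
  obtain ⟨u, v, huv, hcomm⟩ := hyp_comm hT hadj hinv g hc
  obtain ⟨a, b, c, d, hR⟩ := hC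
  have m1 : φ (a * b * a⁻¹ * b⁻¹) ∈ MulAction.stabilizer G u ⊓ MulAction.stabilizer G v := by
    have := hcomm (φ a) (φ b) (hg _) (hg _)
    rw [← map_inv, ← map_inv, ← map_mul, ← map_mul, ← map_mul] at this
    exact ⟨this.1, this.2⟩
  have m2 : φ (c * d * c⁻¹ * d⁻¹) ∈ MulAction.stabilizer G u ⊓ MulAction.stabilizer G v := by
    have := hcomm (φ c) (φ d) (hg _) (hg _)
    rw [← map_inv, ← map_inv, ← map_mul, ← map_mul, ← map_mul] at this
    exact ⟨this.1, this.2⟩
  obtain ⟨i, j, hij, he⟩ := common_power (hst u v huv) ⟨_, m1⟩ ⟨_, m2⟩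
  have he' := congrArg Subtype.val he
  simp only [Subgroup.coe_zpow] at he'
  rw [← map_zpow, ← map_zpow] at he'
  obtain ⟨h1, h2⟩ := hR i j (hφ he')
  rcases hij with h | h
  · exact h h1
  · exact h h2

end Trees

theorem finiteIndex_comap {A B : Type} [Group A] [Group B] (f : A →* B) (H : Subgroup B)
    (hH : H.FiniteIndex) : (H.comap f).FiniteIndex := by
  constructor
  have h := Subgroup.relIndex_comap_ne_zero f (J := H) (K := ⊤)
    (by rw [Subgroup.relIndex_top_right]; exact hH.index_ne_zero)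
  rwa [Subgroup.comap_top, Subgroup.relIndex_top_right] at h

/-- Subgroups of finite index of `F₂ × F₂` do not split over two-ended subgroups. -/
theorem not_splits_finiteIndex (K : Type) [Group K] (φ : K →* FF × FF)
    (hinj : Function.Injective φ) (hfi : φ.range.FiniteIndex) : ¬ SplitsOverTwoEnded K := by
  rintro ⟨V, T, act, hT, hadj, hinv, hfix, -, hst⟩
  let e : K ≃* φ.range := MonoidHom.ofInjective hinj
  have he : ∀ y : φ.range, φ (e.symm y) = y := by
    intro y
    have := congrArg Subtype.val (e.apply_symm_apply y)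
    exact this
  let P : Subgroup FF := φ.range.comap (MonoidHom.inl FF FF)
  let Q : Subgroup FF := φ.range.comap (MonoidHom.inr FF FF)
  have hP : P.FiniteIndex := finiteIndex_comap _ _ hfi
  have hQ : Q.FiniteIndex := finiteIndex_comap _ _ hfi
  let ιP : P →* K := e.symm.toMonoidHom.comp
    (((MonoidHom.inl FF FF).comp P.subtype).codRestrict φ.range fun a => a.2)
  let ιQ : Q →* K := e.symm.toMonoidHom.comp
    (((MonoidHom.inr FF FF).comp Q.subtype).codRestrict φ.range fun a => a.2)
  have hιP : ∀ a : P, φ (ιP a) = ((a : FF), 1) := fun a => he ⟨((a : FF), 1), a.2⟩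
  have hιQ : ∀ b : Q, φ (ιQ b) = (1, (b : FF)) := fun b => he ⟨(1, (b : FF)), b.2⟩
  have injP : Function.Injective ιP := by
    intro a b hab
    have h := congrArg φ hab
    rw [hιP, hιP] at h
    exact Subtype.ext (congrArg Prod.fst h)
  have injQ : Function.Injective ιQ := by
    intro a b hab
    have h := congrArg φ hab
    rw [hιQ, hιQ] at h
    exact Subtype.ext (congrArg Prod.snd h)
  have hcomm : ∀ (a : P) (b : Q), ιP a * ιQ b = ιQ b * ιP a := by
    intro a b
    apply hinj
    rw [map_mul, map_mul, hιP, hιQ]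
    simp
  have fgP : Group.FG P := inferInstance
  have fgQ : Group.FG Q := inferInstance
  obtain ⟨x0, hx0⟩ := fix_hom hT hadj ιP fun a =>
    elliptic_of_comm hT hadj hinv hst (rich_finiteIndex Q) _ ιQ injQ fun b => (hcomm a b).symm
  obtain ⟨y0, hy0⟩ := fix_hom hT hadj ιQ fun b =>
    elliptic_of_comm hT hadj hinv hst (rich_finiteIndex P) _ ιP injP fun a => hcomm a b
  obtain ⟨x, h1, h2⟩ := comm_fix hT hadj (Set.range ιP) (Set.range ιQ) (by
      rintro _ ⟨a, rfl⟩ _ ⟨b, rfl⟩
      exact hcomm a b) ⟨x0, by rintro _ ⟨a, rfl⟩; exact hx0 a⟩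
      ⟨y0, by rintro _ ⟨a, rfl⟩; exact hy0 a⟩
  -- all elements of `K` have fixed vertices
  have hell : ∀ g : K, ∃ v : V, (MonoidHom.id K) g • v = v := by
    intro g
    obtain ⟨p, hp, hgp⟩ := Subgroup.exists_pow_mem_of_index_ne_zero hP.index_ne_zero (φ g).1
    obtain ⟨q, hq, hgq⟩ := Subgroup.exists_pow_mem_of_index_ne_zero hQ.index_ne_zero (φ g).2
    have a1 : (φ g).1 ^ (p * q) ∈ P := by rw [pow_mul]; exact P.pow_mem hgp.2 q
    have a2 : (φ g).2 ^ (p * q) ∈ Q := by rw [mul_comm, pow_mul]; exact Q.pow_mem hgq.2 p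
    have e1 : g ^ (p * q) = ιP ⟨_, a1⟩ * ιQ ⟨_, a2⟩ := by
      apply hinj
      rw [map_pow, map_mul, hιP, hιQ]
      apply Prod.ext <;> simp
    refine elliptic_of_pow hT hadj hinv g (m := p * q) (Nat.mul_pos hp hq) x ?_
    rw [e1, mul_smul, h2 _ ⟨_, rfl⟩, h1 _ ⟨_, rfl⟩]
  have fgF : Group.FG (FF × FF) := inferInstance
  have fgR : Group.FG φ.range := inferInstance
  have fgK : Group.FG K := Group.fg_of_surjective (f := e.symm.toMonoidHom) e.symm.surjective
  obtain ⟨z, hz⟩ := fix_hom hT hadj (MonoidHom.id K) hell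
  exact hfix ⟨z, hz⟩

end Pool.Agent.Y469.SP
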