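import Pool.Agent.H895R2.SB.Neg

set_option autoImplicit false

/-!
Products of two finitely generated groups which contain free groups do not split over two-ended
subgroups: Serre's lemma for finitely generated groups, and commutators.
-/

namespace Pool.Agent.Y469.SP

open Pool.Agent.H895R2.SB

section Trees

variable {V : Type} {T : SimpleGraph V} {G : Type} [Group G] [MulAction G V]

/-- Serre's lemma for a set of elements with a common fixed vertex and a further element. -/
theorem serre_set (hT : T.IsTree)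
    (hadj : ∀ (g : G) (u v : V), T.Adj u v → T.Adj (g • u) (g • v)) (H : Set G) (g : G)
    (hH : ∃ x : V, ∀ h ∈ H, h • x = x) (hg : ∃ y : V, g • y = y)
    (hgh : ∀ h ∈ H, ∃ p : V, (h * g) • p = p) :
    ∃ x : V, (∀ h ∈ H, h • x = x) ∧ g • x = x := by
  obtain ⟨x, y, hx, hy, hmin⟩ := exists_min_pair (T := T) hH hg
  by_cases hxy : x = y
  · exact ⟨x, hx, by rw [hxy]; exact hy⟩
  exfalso
  obtain ⟨x₁, h1, h2⟩ := toward hT hxy
  obtain ⟨h, hh, hx₁⟩ : ∃ h ∈ H, h • x₁ ≠ x₁ := by
    by_contra hc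
    push Not at hc
    have := hmin x₁ y hc hy
    omega
  obtain ⟨z, hz1, hz2⟩ := serre hT hadj (g := h) (h := g) ⟨x, hx h hh⟩ ⟨y, hy⟩ (hgh h hh)
  have hgx : g • x = x := by
    have d1 := dcomm (T := T) z x
    have d2 := dcomm (T := T) z x₁
    rcases adj_dist hT z h1 with h5 | h5
    · have r := refl_dist hT hadj (y := z) (hx h hh) h1 (by omega) hx₁
      rw [hz1, SimpleGraph.dist_self] at r
      have h0 : T.dist x z = 0 := by omega
      have e : x = z := (hT.connected.dist_eq_zero_iff).1 h0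
      rw [e]; exact hz2
    · have h6 := away hT z y (T.dist x₁ y) x x₁ h1 h5 rfl h2.symm
      have e1 := ds hT hadj g z x
      rw [hz2] at e1
      have e2 := ds hT hadj g x y
      rw [hy] at e2
      exact geo_unique hT (x := z) (y := y) (by omega) (by omega) (by omega)
  have h7 := hmin x x hx hgx
  rw [SimpleGraph.dist_self] at h7
  omega

/-- Serre's lemma: a finitely generated group of elements with fixed vertices has a fixed vertex. -/
theorem fix_closure (hT : T.IsTree)
    (hadj : ∀ (g : G) (u v : V), T.Adj u v → T.Adj (g • u) (g • v)) (S : Finset G)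
    (hell : ∀ a ∈ Subgroup.closure (S : Set G), ∃ v : V, a • v = v) :
    ∃ x : V, ∀ a ∈ Subgroup.closure (S : Set G), a • x = x := by
  classical
  induction S using Finset.induction_on with
  | empty =>
    obtain ⟨v, -⟩ := hell 1 (Subgroup.one_mem _)
    refine ⟨v, fun a ha => ?_⟩
    rw [Finset.coe_empty, Subgroup.closure_empty, Subgroup.mem_bot] at ha
    rw [ha, one_smul]
  | insert g S hgS ih =>
    have hle : Subgroup.closure (S : Set G) ≤ Subgroup.closure ((insert g S : Finset G) : Set G) :=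
      Subgroup.closure_mono (by rw [Finset.coe_insert]; exact Set.subset_insert _ _)
    have hgm : g ∈ Subgroup.closure ((insert g S : Finset G) : Set G) :=
      Subgroup.subset_closure (by rw [Finset.coe_insert]; exact Set.mem_insert _ _)
    obtain ⟨x, hx1, hx2⟩ := serre_set hT hadj (Subgroup.closure (S : Set G) : Set G) g
      (ih fun a ha => hell a (hle ha)) (hell g hgm)
      (fun h hh => hell _ (Subgroup.mul_mem _ (hle hh) hgm))
    refine ⟨x, fun a ha => ?_⟩
    have h3 : Subgroup.closure ((insert g S : Finset G) : Set G) ≤ MulAction.stabilizer G x := by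
      rw [Subgroup.closure_le]
      intro b hb
      rw [Finset.coe_insert] at hb
      rcases hb with rfl | hb
      · exact hx2
      · exact hx1 b (Subgroup.subset_closure hb)
    exact h3 ha

theorem fix_hom (hT : T.IsTree)
    (hadj : ∀ (g : G) (u v : V), T.Adj u v → T.Adj (g • u) (g • v)) {A : Type} [Group A]
    [Group.FG A] (φ : A →* G) (hell : ∀ a, ∃ v : V, φ a • v = v) : ∃ x : V, ∀ a, φ a • x = x := by
  classical
  obtain ⟨S, hS⟩ := (Group.fg_def.1 (inferInstance : Group.FG A))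
  have e : Subgroup.closure ((S.image φ : Finset G) : Set G) = φ.range := by
    rw [Finset.coe_image, ← MonoidHom.map_closure, hS, MonoidHom.range_eq_map]
  obtain ⟨x, hx⟩ := fix_closure hT hadj (S.image φ) (by
    rw [e]
    rintro _ ⟨a, rfl⟩
    exact hell a)
  rw [e] at hx
  exact ⟨x, fun a => hx _ ⟨a, rfl⟩⟩

end Trees

/-- Two commutators without common powers. -/
def Rich (A : Type) [Group A] : Prop :=
  ∃ a b c d : A, ∀ i j : ℤ, (a * b * a⁻¹ * b⁻¹) ^ i = (c * d * c⁻¹ * d⁻¹) ^ j → i = 0 ∧ j = 0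

theorem Rich.map {A B : Type} [Group A] [Group B] (h : Rich A) (φ : A →* B)
    (hφ : Function.Injective φ) : Rich B := by
  obtain ⟨a, b, c, d, h⟩ := h
  refine ⟨φ a, φ b, φ c, φ d, fun i j hij => h i j (hφ ?_)⟩
  simpa only [map_mul, map_inv, map_zpow] using hij

theorem aff_pow_x (l : ℚ) (hl : l ≠ 0) (p : ℕ) (t : ℚ) :
    aff l hl (FreeGroup.of 0 ^ p) t = l ^ p * t := by
  induction p generalizing t with
  | zero => simp
  | succ p ih => rw [pow_succ, map_mul, Equiv.Perm.mul_apply, aff_x, ih]; ring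

theorem aff_pow_y (l : ℚ) (hl : l ≠ 0) (p : ℕ) (t : ℚ) :
    aff l hl (FreeGroup.of 1 ^ p) t = t + p := by
  induction p generalizing t with
  | zero => simp
  | succ p ih => rw [pow_succ, map_mul, Equiv.Perm.mul_apply, aff_y, ih]; push_cast; ring

theorem aff_comm (l : ℚ) (hl : l ≠ 0) (p q : ℕ) (t : ℚ) :
    aff l hl (FreeGroup.of 0 ^ p * FreeGroup.of 1 ^ q * (FreeGroup.of 0 ^ p)⁻¹ *
      (FreeGroup.of 1 ^ q)⁻¹) t = t + q * (l ^ p - 1) := by
  have hlp : l ^ p ≠ 0 := pow_ne_zero _ hl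
  have hx' : ∀ s, aff l hl (FreeGroup.of 0 ^ p)⁻¹ s = (l ^ p)⁻¹ * s := by
    intro s
    rw [map_inv, Equiv.Perm.inv_eq_iff_eq, aff_pow_x]
    field_simp
  have hy' : ∀ s, aff l hl (FreeGroup.of 1 ^ q)⁻¹ s = s - q := by
    intro s
    rw [map_inv, Equiv.Perm.inv_eq_iff_eq, aff_pow_y]
    ring
  rw [map_mul, map_mul, map_mul, Equiv.Perm.mul_apply, Equiv.Perm.mul_apply,
    Equiv.Perm.mul_apply, hy', hx', aff_pow_y, aff_pow_x]
  field_simp
  ring

/-- Subgroups of finite index of the free group of rank two. -/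
theorem rich_finiteIndex (P : Subgroup FF) [hP : P.FiniteIndex] : Rich P := by
  obtain ⟨p, hp, hxp⟩ := Subgroup.exists_pow_mem_of_index_ne_zero hP.index_ne_zero
    (FreeGroup.of (0 : Fin 2))
  obtain ⟨q, hq, hyq⟩ := Subgroup.exists_pow_mem_of_index_ne_zero hP.index_ne_zero
    (FreeGroup.of (1 : Fin 2))
  have hx2 : FreeGroup.of (0 : Fin 2) ^ (2 * p) ∈ P := by
    rw [mul_comm, pow_mul]; exact P.pow_mem hxp.2 2
  refine ⟨⟨_, hxp.2⟩, ⟨_, hyq.2⟩, ⟨_, hx2⟩, ⟨_, hyq.2⟩, fun i j h => ?_⟩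
  have h1 := congrArg Subtype.val h
  simp only [Subgroup.coe_zpow, Subgroup.coe_mul, Subgroup.coe_inv] at h1
  have key : ∀ (l : ℚ) (hl : l ≠ 0), (i : ℚ) * (q * (l ^ p - 1)) = j * (q * (l ^ (2 * p) - 1)) := by
    intro l hl
    have h2 := congrArg (fun g => aff l hl g 0) h1
    simp only [map_zpow] at h2
    rw [perm_zpow (aff_comm l hl p q), perm_zpow (aff_comm l hl (2 * p) q)] at h2
    linarith
  have hq0 : (q : ℚ) ≠ 0 := by exact_mod_cast (by omega : q ≠ 0)
  have red : ∀ l : ℚ, l ≠ 0 → l ^ p ≠ 1 → (i : ℚ) = j * (l ^ p + 1) := by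
    intro l hl h1
    have h2 := key l hl
    have h3 : l ^ p - 1 ≠ 0 := sub_ne_zero.2 h1
    have h4 : l ^ (2 * p) = l ^ p * l ^ p := by rw [two_mul, pow_add]
    rw [h4] at h2
    have h5 : ((i : ℚ) - j * (l ^ p + 1)) * (q * (l ^ p - 1)) = 0 := by
      linear_combination h2
    rcases mul_eq_zero.1 h5 with h6 | h6
    · linarith
    · exact absurd h6 (mul_ne_zero hq0 h3)
  have hpne : p ≠ 0 := by omega
  have a2 : (1 : ℚ) < 2 ^ p := one_lt_pow₀ (by norm_num) hpne
  have a3 : (2 : ℚ) ^ p < 3 ^ p := pow_lt_pow_left₀ (by norm_num) (by norm_num) hpne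
  have e2 := red 2 (by norm_num) a2.ne'
  have e3 := red 3 (by norm_num) (by linarith : (1 : ℚ) < 3 ^ p).ne'
  have hj : (j : ℚ) = 0 := by
    have h7 : (j : ℚ) * ((3 : ℚ) ^ p - 2 ^ p) = 0 := by linarith
    rcases mul_eq_zero.1 h7 with h8 | h8
    · exact h8
    · exact absurd h8 (by linarith : (0 : ℚ) < 3 ^ p - 2 ^ p).ne'
  have hi : (i : ℚ) = 0 := by rw [hj] at e2; linarith
  exact ⟨by exact_mod_cast hi, by exact_mod_cast hj⟩

theorem rich_free : Rich FF := by
  refine ⟨FreeGroup.of 0, FreeGroup.of 1, FreeGroup.of 0 * FreeGroup.of 0, FreeGroup.of 1,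
    fun i j h => no_common_power (i := i) (j := j) ?_⟩
  exact h

/-- The product of two finitely generated groups, each of which has two commutators without common
powers, does not split over a two-ended subgroup. -/
theorem not_splits_prod (A B : Type) [Group A] [Group B] [Group.FG A] [Group.FG B] (hA : Rich A)
    (hB : Rich B) : ¬ SplitsOverTwoEnded (A × B) := by
  rintro ⟨V, T, act, hT, hadj, hinv, hfix, -, hst⟩
  have hell : ∀ (C : Type) [Group C], Rich C → ∀ (g : A × B) (φ : C →* A × B),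
      Function.Injective φ → (∀ b, φ b * g = g * φ b) → ∃ v : V, g • v = v := by
    intro C _ hC g φ hφ hg
    by_contra hc
    obtain ⟨u, v, huv, hcomm⟩ := hyp_comm hT hadj hinv g hc
    obtain ⟨a, b, c, d, hR⟩ := hC
    have m1 : φ (a * b * a⁻¹ * b⁻¹) ∈
        MulAction.stabilizer (A × B) u ⊓ MulAction.stabilizer (A × B) v := by
      have := hcomm (φ a) (φ b) (hg _) (hg _)
      rw [← map_inv, ← map_inv, ← map_mul, ← map_mul, ← map_mul] at this
      exact ⟨this.1, this.2⟩
    have m2 : φ (c * d * c⁻¹ * d⁻¹) ∈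
        MulAction.stabilizer (A × B) u ⊓ MulAction.stabilizer (A × B) v := by
      have := hcomm (φ c) (φ d) (hg _) (hg _)
      rw [← map_inv, ← map_inv, ← map_mul, ← map_mul, ← map_mul] at this
      exact ⟨this.1, this.2⟩
    obtain ⟨i, j, hij, he⟩ := common_power (hst u v huv) ⟨_, m1⟩ ⟨_, m2⟩
    have he' := congrArg Subtype.val he
    simp only [Subgroup.coe_zpow] at he'
    rw [← map_zpow, ← map_zpow] at he'
    obtain ⟨h1, h2⟩ := hR i j (hφ he')
    rcases hij with h | h
    · exact h h1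
    · exact h h2
  have hL : ∀ a : A, ∃ v : V, (MonoidHom.inl A B a) • v = v := fun a =>
    hell B hB (a, 1) (MonoidHom.inr A B) (fun x y h => congrArg Prod.snd h) (fun b => by simp)
  have hR : ∀ b : B, ∃ v : V, (MonoidHom.inr A B b) • v = v := fun b =>
    hell A hA (1, b) (MonoidHom.inl A B) (fun x y h => congrArg Prod.fst h) (fun a => by simp)
  obtain ⟨x0, hx0⟩ := fix_hom hT hadj (MonoidHom.inl A B) hL
  obtain ⟨y0, hy0⟩ := fix_hom hT hadj (MonoidHom.inr A B) hR
  obtain ⟨x, h1, h2⟩ := comm_fix hT hadj (Set.range (MonoidHom.inl A B))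
    (Set.range (MonoidHom.inr A B)) (by
      rintro _ ⟨a, rfl⟩ _ ⟨b, rfl⟩
      simp) ⟨x0, by rintro _ ⟨a, rfl⟩; exact hx0 a⟩ ⟨y0, by rintro _ ⟨a, rfl⟩; exact hy0 a⟩
  apply hfix
  refine ⟨x, fun g => ?_⟩
  have e : g = MonoidHom.inl A B g.1 * MonoidHom.inr A B g.2 := by
    apply Prod.ext <;> simp
  rw [e, mul_smul, h2 _ ⟨_, rfl⟩, h1 _ ⟨_, rfl⟩]

end Pool.Agent.Y469.SP
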